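import Pool.Agent.Run7.h316.EQ.Quad
import Pool.Agent.Run7.h316.EQ.Typ
import Pool.Agent.N84.TS.Word

/-!
# Dynamical Mordell-Lang for symmetric powers of compositions of quadratic functions with prime, equidistributed, metric or
# random coefficients

Let `c w`, `w ∈ Ω`, be a family of vectors in `ℤ ^ ι` (`ι` a finite set) and `S M ⊂ Ω` finite sets. `Usually`: for ALL
`k ≥ 1` and all `6 k` different coordinates of the vectors, which are the coefficients of quadratic rational functions
`f_1, …, f_k`, the proportion of the `w ∈ S M` for which the following is NOT true tends to zero, `M → ∞`: for ALL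
`N ≥ 1` and ALL functions `f_w = f_(w_1) ∘ ... ∘ f_(w_m)` in the semigroup generated by `f_1, …, f_k`, the symmetric power
`Sym^N f_w : ℙ^N → ℙ^N` is an endomorphism of degree `2 ^ m` with the full Dynamical Mordell-Lang property (all complex
points, all closed subvarieties over `ℂ`).

**Theorem.** The property `Usually` is robust (`Pool.Agent.Run7.h316.EQ.Robust`):

(1) All dominated families have it: there are `C`, `A`, `D` such that for all squarefree `q` prime to `D` at most the
proportion `C (q / φ(q)) ^ A q ^ (-n) + o(1)` of the `c w`, `w ∈ S M`, `n = |ι|`, is in a given class modulo `q`. (All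
equidistributed sequences, along arbitrary sets of times, are dominated, and all their subfamilies of positive lower
density.)
(2) - (4) Metric sequences: `(⌊f_{i,l}(x_i)⌋)_i` for Koksma sequences `f_{i,0}, f_{i,1}, …`, `(⌊a_{i,l} x_i⌋)_i` for
arbitrary sequences of different integers (or of real numbers with a gap) and `(⌊ξ_i x_i ^ (k_l)⌋)_i`, for almost all
`x`.
(5) Random orbits of groups of integral matrices of determinant one which generate `SL(ℤ/q)` for all `q` prime to some
number (all Zariski dense groups, possibly of infinite index).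
(6) Generalised polynomials `(⌊∑_t a_{i,t} l ^ t⌋)_i` at the integers and at the primes `l` of `(M, 2M]`.
(7) PRIME COEFFICIENTS: the vectors of prime numbers `≤ M`. So for almost all sextuples of prime numbers
`a, …, f ≤ M` all symmetric powers of all iterates of `(a z² + b z + c) / (d z² + e z + f)` are endomorphisms of the
projective spaces `ℙ^N` with the Dynamical Mordell-Lang property.

The starting results are about one quadratic function and 100 percent of the vectors in large boxes (`SymmetricPowers`),
and about generalised polynomials (`ThinSymmetricPowers`, helper84: with a better bound for the exceptional set; its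
library `Pool.Agent.N84.TS.Word` is used).

Proof. For a positive proportion of the residues modulo a large prime `p` all critical points of all the `f_j` are rational
and outside the images of the rational points (starting library TH838). So the exceptional set is very null
(`Pool.Agent.Run7.h316.EQ.VeryNull`): for all `D`, `η > 1` and `ε > 0` there is a squarefree `q` prime to `D` with
`q / φ(q) ≤ η` such that at most the proportion `ε` of the classes modulo `q` contain elements of it. The families above
almost avoid such sets. Metric sequences: `Pool.Agent.N24.KM` (helpers 24, 344, 617, 199, 764, 432, 286); random orbits: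
`Pool.Agent.N24.RW` (helpers 24, 123, 195, 300, 543, 765); generalised polynomials: `Pool.Agent.N666.TM` (helper666);
`Pool.Agent.N918.EQ` (helper918); primes: the prime number theorem for arithmetic progressions (helper923).
-/

set_option autoImplicit false

namespace Pool.Agent.Results.MP_b15c9e_ag.RobustSymmetricPowers

open MvPolynomial MeasureTheory
open Pool.Agent.Run7.h316.EQ (StrongNull Robust)
open Pool.Agent.Results.MP_b15c9e_ag.SymmetricPowers (symPoint IsEndo DML ratMap)

/-- The composition `f_w = f_(w_1) ∘ ... ∘ f_(w_m)` in homogeneous coordinates, where `f_i = ratMap (v (i, ·))` is the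
quadratic rational function `(y₀ : y₁) ↦ (∑ v_{i,0,e} y₀^e y₁^(2-e) : ∑ v_{i,1,e} y₀^e y₁^(2-e))`. -/
noncomputable def comp {k : ℕ} (v : Fin k × Fin 2 × Fin 3 → ℤ) (w : List (Fin k)) :
    (Fin 2 → ℂ) → Fin 2 → ℂ :=
  w.foldr (fun i g => ratMap (fun q => v (i, q)) ∘ g) id

/-- `Φ` is the `N`-th symmetric power `{P_1, ..., P_N} ↦ {g(P_1), ..., g(P_N)}` of the self-map `g` of `ℙ^1`; the
coordinates `symPoint x` of `{P_1, ..., P_N}` are the coefficients of `∏ (x_{i,0} + x_{i,1} T)`. -/
def IsSymPower {N : ℕ} (g : (Fin 2 → ℂ) → Fin 2 → ℂ)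
    (Φ : Fin (N + 1) → MvPolynomial (Fin (N + 1)) ℂ) : Prop :=
  ∀ x : Fin N → Fin 2 → ℂ, (fun j => eval (symPoint x) (Φ j)) = symPoint fun i => g (x i)

theorem comp_eq {k : ℕ} (v : Fin k × Fin 2 × Fin 3 → ℤ) (w : List (Fin k)) :
    comp v w = Pool.Agent.N84.TS.word v w := by
  induction w with
  | nil => rfl
  | cons i w ih =>
    have h : comp v (i :: w) = ratMap (fun q => v (i, q)) ∘ comp v w := rfl
    rw [h, ih]
    rfl

/-- For all `k ≥ 1` and all `6 k` different coordinates the proportion of the `x` in `S M` such that some symmetric power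
of some composition of the quadratic functions `f_1, …, f_k` whose coefficients are these coordinates of `c x` has not the
Dynamical Mordell-Lang property tends to zero. -/
def Usually {ι : Type} (Ω : Type) (S : ℕ → Finset Ω) (c : Ω → ι → ℤ) : Prop :=
  ∀ k : ℕ, 1 ≤ k → ∀ l : Fin k × Fin 2 × Fin 3 → ι, Function.Injective l →
    ∀ ε : ℝ, 0 < ε → ∃ M₀ : ℕ, ∀ M : ℕ, M₀ ≤ M →
      (({x : Ω | x ∈ S M ∧ ¬ ∀ w : List (Fin k), w ≠ [] → ∀ N : ℕ, 1 ≤ N →
        ∃ Φ : Fin (N + 1) → MvPolynomial (Fin (N + 1)) ℂ,
          IsEndo (2 ^ w.length) Φ ∧ IsSymPower (comp (fun q => c x (l q)) w) Φ ∧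
            DML Φ}.ncard : ℕ) : ℝ) ≤ ε * (S M).card

/-- **Dynamical Mordell-Lang for symmetric powers of compositions of quadratic functions with prime coefficients, for
dominated families, metric sequences, random orbits and generalised polynomials.** -/
theorem result (ι : Type) [Fintype ι] [DecidableEq ι] [Nonempty ι] :
    Robust (Usually (ι := ι)) := by
  classical
  refine Pool.Agent.Run7.h316.EQ.robust_of _ fun X _ ν P Ω S c hc => ?_
  have h1 : ∀ᵐ x ∂ν, ∀ (k : ℕ) (l : Fin k × Fin 2 × Fin (2 + 1) → ι), 1 ≤ k →
      Function.Injective l → P x → Pool.Agent.Run7.h316.EQ.Rare S (c x)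
        {v : ι → ℤ | ¬ Pool.Agent.N84.TS.GoodQ k fun q => v (l q)} := by
    rw [ae_all_iff]
    intro k
    rw [ae_all_iff]
    intro l
    by_cases hk : 1 ≤ k
    swap
    · exact Filter.Eventually.of_forall fun x hk' => absurd hk' hk
    by_cases hl : Function.Injective l
    swap
    · exact Filter.Eventually.of_forall fun x _ hl' => absurd hl' hl
    have h2 := ((Pool.Agent.Run7.h316.EQ.veryNull_quad k hk).comap hl).strong
    filter_upwards [hc _ h2] with x hx _ _ hP
    exact hx hP
  filter_upwards [h1] with x hx hP k hk l hl ε hε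
  obtain ⟨M₀, h2⟩ := hx k l hk hl hP ε hε
  refine ⟨M₀, fun M hM => le_trans ?_ (h2 M hM)⟩
  refine Nat.cast_le.2 (Set.ncard_le_ncard ?_ ((S M).finite_toSet.subset fun w hw => hw.1))
  rintro y ⟨hw1, hw2⟩
  refine ⟨hw1, fun hg => hw2 fun w hw N hN => ?_⟩
  obtain ⟨Φ, g1, g2⟩ := Pool.Agent.N84.TS.exists_phi _ hg N hN w
  refine ⟨Φ, g1, ?_, Pool.Agent.N84.TS.dml_word hN _ hg w hw Φ g2⟩
  rw [comp_eq]
  exact g2

end Pool.Agent.Results.MP_b15c9e_ag.RobustSymmetricPowers
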