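import Pool.Agent.Run7.h383.DM.Fam
import Pool.Agent.Run7.h866.ZP.Rad

/-!
# MP_b15c9e_ag: Dynamical Mordell-Lang for families of orbits with one preperiodic member, for all but
finitely many roots of unity as parameters

**Families** (as in the starting file `OnePreperiodicMember`). Let `F_{t,0}, …, F_{t,N}` be forms of
degree `d` in `N + 1` variables whose coefficients are complex polynomials in `t` (`member F t`), let
`x_0, …, x_N` be complex polynomials in `t` (`start x t`). So `F_t` is a one-parameter family of
rational self-maps of `ℙ^N` (for example of endomorphisms, for example a constant family) and `x(t)`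
is a curve of starting points.

**Étale preperiodic points.** A point `P` of the cone is called étale preperiodic for a system of
forms `F` if all iterates `F^n(P)` are different from zero, the point `[P]` of `ℙ^N` is preperiodic
and the determinant of the matrix of the partial derivatives of the `F_i` does not vanish at
`F^n(P)` for `n ≥ n₀` (that is, `[F]` is étale at the points of the cycle).

**Theorem.** Let `α ≠ 0, 1, -1` be a rational number such that `x(α)` is étale preperiodic for `F_α`.
Then for all but finitely many roots of unity `ζ` the orbit of `x(ζ)` under `F_ζ` satisfies the
Dynamical Mordell-Lang conjecture (`DMLAt`): all iterates of `x(ζ)` are defined (no iterate is zero),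
and for every set `S` of polynomials in `N + 1` variables (for closed subsets of `ℙ^N`: a set of
forms) the set of the `n` such that all members of `S` vanish at the `n`-th iterate is a finite union
of arithmetic progressions.

For example let `F` be any endomorphism of `ℙ^N` over `ℂ` and let `P ∈ ℙ^N(ℂ)` be any point whose orbit
is finite and such that `F` is étale at the cycle. Let `x(t)` be any rational curve with `x(2) = P`,
for instance any line through `P`, suitably parametrized. Then the Dynamical Mordell-Lang conjecture
holds for all but finitely many of the starting points `x(ζ)`, `ζ` a root of unity.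

The degrees of the parameters are unbounded, and the finite set of exceptions does not depend on the
subvarieties. In the starting files `CurvesThroughPreperiodicPoints`, `NumberFieldPoints` and
`OnePreperiodicMember` the parameters have bounded degree (where `2 δ + 1` preperiodic members are
needed for the degree `δ`), are in a fixed number field, or rational; parameters of unbounded degree are
not treated there.

**The proof.** For all but finitely many roots of unity `ζ`, of order `m`, the numerator of the value at
`α` of the cyclotomic polynomial of order `m` has a prime factor `p` larger than a given number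
(`Pool.Agent.Y152.RP.unityMain` of the starting library). Therefore there is an embedding of `ℂ` into
the algebraic closure of `ℚ_p` for which all data have good reduction and `ζ` is near to `α`
(`Run7.h383.DM.emb_of_near`); so the orbit of `x(ζ)` has the reduction of the orbit of `x(α)`, it is
étale at `p`, and `p`-adic interpolation applies.
-/

set_option autoImplicit false

open Polynomial Pool.Agent.H936R2 Pool.Agent.Y199.DM

namespace Pool.Agent.Results.MP_b15c9e_ag.RootsOfUnity

open Pool.Agent.Results.MP_b15c9e_ag.OnePreperiodicMember (member start)

variable {N : ℕ}

/-- `t` is a root of unity. -/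
def IsRootOfUnity (t : ℂ) : Prop := ∃ m : ℕ, 0 < m ∧ t ^ m = 1

/-- **Dynamical Mordell-Lang for families of orbits with one preperiodic member, for all but finitely
many roots of unity as parameters.** -/
theorem result {d : ℕ} (F : Fin (N + 1) → MvPolynomial (Fin (N + 1)) ℂ[X])
    (hF : ∀ i, (F i).IsHomogeneous d) (x : Fin (N + 1) → ℂ[X]) (α : ℚ) (h0 : α ≠ 0) (h1 : α ≠ 1)
    (h2 : α ≠ -1) (h : EtalePreperiodic (member F α) (start x α)) :
    {ζ : ℂ | IsRootOfUnity ζ ∧ ¬ DMLAt (member F ζ) (start x ζ)}.Finite := by
  refine Run7.h383.DM.dmlAt F hF x {(α : ℂ)} (fun β hβ => ?_) {ζ | IsRootOfUnity ζ} ?_ ⊥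
    (Pool.Agent.Run7.h866.ZP.hits_unity α h0 ?_)
  · rw [Finset.mem_singleton.1 hβ]
    exact ⟨isAlgebraic_algebraMap α, h⟩
  · rintro ζ ⟨m, hm, hζ⟩
    exact ⟨X ^ m - C 1, (monic_X_pow_sub_C (1 : ℚ) hm.ne').ne_zero, by simp [hζ]⟩
  · intro h3
    rcases abs_eq (zero_le_one (α := ℚ)) |>.1 h3 with h4 | h4
    · exact h1 h4
    · exact h2 h4

end Pool.Agent.Results.MP_b15c9e_ag.RootsOfUnity
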