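import Pool.Agent.Run7.h383.DM.Fam
import Pool.Agent.Run7.h866.ZP.Sum

/-!
# MP_b15c9e_ag: Dynamical Mordell-Lang for families of orbits with one preperiodic member, for all but
finitely many parameters which are sums of elements of a finitely generated multiplicative group

**Families** (as in the starting file `OnePreperiodicMember`). Let `F_{t,0}, …, F_{t,N}` be forms of
degree `d` in `N + 1` variables whose coefficients are complex polynomials in `t` (`member F t`), let
`x_0, …, x_N` be complex polynomials in `t` (`start x t`). So `F_t` is a one-parameter family of
rational self-maps of `ℙ^N` (for example of endomorphisms, for example a constant family) and `x(t)`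
is a curve of starting points.

**Étale preperiodic points.** A point `P` of the cone is called étale preperiodic for a system of
forms `F` if all iterates `F^n(P)` are different from zero, the point `[P]` of `ℙ^N` is preperiodic
and the determinant of the matrix of the partial derivatives of the `F_i` does not vanish at
`F^n(P)` for `n ≥ n₀` (that is, `[F]` is étale at the points of the cycle).

**Parameters.** Let `G` be a group generated by finitely many nonzero algebraic numbers, and let
`b, a_1, …, a_q`, `q ≥ 1`, be algebraic numbers. The parameters are the numbers
`t = b + a_1 u_1 + … + a_q u_q`, `u_1, …, u_q ∈ G` (`Sums`), for instance the numbers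
`± 2^k 3^l ± 5^m`, or the sums of `q` units of a number field.

**Theorem.** Let `α` be an algebraic number, of any degree, such that `x(α)` is étale preperiodic for
`F_α`, and which is not equal to a proper partial sum `b + ∑_{i ∈ J} a_i u_i`, `J ≠ {1, …, q}`,
`u_i ∈ G` (`IsPartialSum`). Then for all but finitely many numbers `t` of the form above the
orbit of `x(t)` under `F_t` satisfies the Dynamical Mordell-Lang conjecture (`DMLAt`): all iterates of
`x(t)` are defined (no iterate is zero), and for every set `S` of polynomials in `N + 1` variables
(for closed subsets of `ℙ^N`: a set of forms) the set of the `n` such that all members of `S` vanish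
at the `n`-th iterate is a finite union of arithmetic progressions.

For example let `F` be any endomorphism of `ℙ^N` over `ℂ` and let `P ∈ ℙ^N(ℂ)` be any point whose orbit
is finite and such that `F` is étale at the cycle. Let `x(t)` be any rational curve with `x(5) = P`,
for instance any line through `P`, suitably parametrized. Then the Dynamical Mordell-Lang conjecture
holds for all but finitely many of the starting points `x(u + v)`, `u, v ∈ {± 2^k 3^l}` (because `5`
is not `0` and not of the form `± 2^k 3^l`).

The finite set of exceptions does not depend on the subvarieties. Earlier results: the starting file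
`NumberFieldPoints` contains the case `q = 1` (units; the condition is then `α ≠ b`), and for all
elements of a number field it needs three algebraic numbers `α` for which `x(α)` is étale preperiodic
(two for integers). For `q ≥ 2` the sets of sums here are not covered by the cases of that file for
which one `α` is sufficient. The starting file `OnePreperiodicMember` needs one `α`, as the theorem here,
but has rational parameters only and admits `C (log B)^s` exceptions among the integers up to `B`;
nothing follows for sparse sets of sums as above. `CurvesThroughPreperiodicPoints` needs `2 δ + 1`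
rational `α` for the numbers of degree at most `δ`.

**The proof.** If `α` is not a proper partial sum then for every finite set `W` of algebraic numbers
there are only finitely many `t` of this form for which `t - α` is invertible in the ring generated by
`W` and `t` (`Pool.Agent.Run7.h866.ZP.hits_sums`, from the unit equation in several terms). For all
other `t` the constant coefficient of the minimal polynomial of `t - α` over `ℤ` is divisible by a
large prime `p`, and there is an embedding of `ℂ` into the algebraic closure of `ℚ_p` for which all
data have good reduction and `t` is near to `α` (`Run7.h383.DM.emb_of_near`); so the orbit of `x(t)`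
has the reduction of the orbit of `x(α)`, it is étale at `p`, and `p`-adic interpolation applies.
-/

set_option autoImplicit false

open Polynomial Pool.Agent.H936R2 Pool.Agent.Y199.DM

namespace Pool.Agent.Results.MP_b15c9e_ag.SumsOfUnits

open Pool.Agent.Results.MP_b15c9e_ag.OnePreperiodicMember (member start)

variable {N : ℕ}

/-- The sums `b + ∑ a i * u i`, where the `u i` are in the multiplicative group generated by `U`. -/
def Sums {q : ℕ} (b : ℂ) (a : Fin q → ℂ) (U : Finset ℂˣ) : Set ℂ :=
  {t | ∃ u : Fin q → ℂˣ, (∀ i, u i ∈ Subgroup.closure (U : Set ℂˣ)) ∧
    t = b + ∑ i, a i * (u i : ℂ)}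

/-- `z` is a proper partial sum `b + ∑ i ∈ J, a i * u i`, where the `u i` are in the multiplicative
group generated by `U`. -/
def IsPartialSum {q : ℕ} (b : ℂ) (a : Fin q → ℂ) (U : Finset ℂˣ) (z : ℂ) : Prop :=
  ∃ J : Finset (Fin q), J ≠ Finset.univ ∧ ∃ u : Fin q → ℂˣ,
    (∀ i, u i ∈ Subgroup.closure (U : Set ℂˣ)) ∧ z = b + ∑ i ∈ J, a i * (u i : ℂ)

/-- **Dynamical Mordell-Lang for families of orbits with one preperiodic member, for all but finitely
many parameters which are sums of elements of a finitely generated multiplicative group.** -/
theorem result {d : ℕ} (F : Fin (N + 1) → MvPolynomial (Fin (N + 1)) ℂ[X])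
    (hF : ∀ i, (F i).IsHomogeneous d) (x : Fin (N + 1) → ℂ[X]) (α : ℂ) (hα : IsAlgebraic ℚ α)
    (h : EtalePreperiodic (member F α) (start x α))
    (q : ℕ) (hq : 0 < q) (b : ℂ) (a : Fin q → ℂ) (hb : IsAlgebraic ℚ b)
    (ha : ∀ i, IsAlgebraic ℚ (a i)) (U : Finset ℂˣ) (hU : ∀ u ∈ U, IsAlgebraic ℚ (u : ℂ))
    (hsum : ¬ IsPartialSum b a U α) :
    {t : ℂ | t ∈ Sums b a U ∧ ¬ DMLAt (member F t) (start x t)}.Finite := by
  have hmem : ∀ u ∈ Subgroup.closure (U : Set ℂˣ), (u : ℂ) ∈ algebraicClosure ℚ ℂ := by
    intro u hu
    induction hu using Subgroup.closure_induction with
    | mem x hx => exact mem_algebraicClosure_iff.2 (hU x hx)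
    | one => exact one_mem _
    | mul x y _ _ hx hy =>
      rw [Units.val_mul]
      exact mul_mem hx hy
    | inv x _ hx =>
      rw [Units.val_inv_eq_inv_val]
      exact inv_mem hx
  have hP : ∀ t ∈ Sums b a U, IsAlgebraic ℚ t := by
    rintro t ⟨u, hu, rfl⟩
    exact mem_algebraicClosure_iff.1 (add_mem (mem_algebraicClosure_iff.2 hb)
      (sum_mem fun i _ => mul_mem (mem_algebraicClosure_iff.2 (ha i)) (hmem _ (hu i))))
  refine Run7.h383.DM.dmlAt F hF x {α} (fun β hβ => ?_) (Sums b a U) hP ⊥
    (Pool.Agent.Run7.h866.ZP.hits_sums hq b a hb ha U hU α hα ?_)
  · rw [Finset.mem_singleton.1 hβ]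
    exact ⟨hα, h⟩
  · intro J hJ u hu he
    exact hsum ⟨J, hJ, u, hu, he⟩

end Pool.Agent.Results.MP_b15c9e_ag.SumsOfUnits
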